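import Pool.Agent.H58.JU.Targets

/-!
BE2: decomposition of a unit vector with respect to two orthonormal vectors.
-/

namespace Pool.Agent.H38.JU

open Pool.Agent.H58.JU Pool.Agent.H48.FR

theorem pf_BE2 : T_BE2 := by
  intro 𝕜 _ _ _ _ n e₁ e₂ h1 h2 h12 x
  have h21 : hp e₂ e₁ = 0 := by rw [← star_hp, h12, star_zero]
  have h11 : hp e₁ e₁ = 1 := by rw [hp_self, h1]; simp
  have h22 : hp e₂ e₂ = 1 := by rw [hp_self, h2]; simp
  set a : 𝕜 := hp x e₁ with ha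
  set b : 𝕜 := hp x e₂ with hb
  obtain ⟨v, hv⟩ : ∃ v : Fin n → 𝕜, v = x + (-a) • e₁ + (-b) • e₂ := ⟨_, rfl⟩
  have hx : x = a • e₁ + b • e₂ + v := by
    rw [hv, neg_smul, neg_smul]
    abel
  have hv1 : hp v e₁ = 0 := by
    rw [hv, hp_add_left, hp_add_left, hp_smul_left, hp_smul_left, h11, h21, ← ha]
    simp
  have hv2 : hp v e₂ = 0 := by
    rw [hv, hp_add_left, hp_add_left, hp_smul_left, hp_smul_left, h12, h22, ← hb]
    simp
  refine ⟨v, hx, hv1, hv2, ?_⟩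
  have hv1' : hp e₁ v = 0 := by rw [← star_hp, hv1, star_zero]
  have hv2' : hp e₂ v = 0 := by rw [← star_hp, hv2, star_zero]
  have e1 : nrm x ^ 2 = nrm (a • e₁ + b • e₂) ^ 2 + nrm v ^ 2 := by
    conv_lhs => rw [hx]
    rw [nrm_add_sq, hp_add_left, hp_smul_left, hp_smul_left, hv1', hv2']
    simp
  have e2 : nrm (a • e₁ + b • e₂) ^ 2 = ‖a‖ ^ 2 + ‖b‖ ^ 2 := by
    rw [nrm_add_sq, hp_smul_left, hp_smul_right, h12, nrm_smul, nrm_smul, h1, h2]
    simp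
  rw [e1, e2]

end Pool.Agent.H38.JU
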