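import Pool.Agent.H58.JU.Targets

/-!
SCH: the sum of the squares of the overlaps.
-/

namespace Pool.Agent.H38.JU

open Pool.Agent.H58.JU
open scoped RealInnerProductSpace

theorem sch_sq {N : ℕ} (f : Fin N → ℝ) : (∑ i, f i) ^ 2 = ∑ i, ∑ j, f i * f j := by
  rw [pow_two, Finset.sum_mul_sum]

theorem sch_norm {W : Type} [NormedAddCommGroup W] [InnerProductSpace ℝ W] {N : ℕ}
    (f : Fin N → ℝ) (w : Fin N → W) :
    ‖∑ i, f i • w i‖ ^ 2 = ∑ i, ∑ j, f i * f j * ⟪w i, w j⟫ := by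
  rw [← real_inner_self_eq_norm_sq, sum_inner]
  refine Finset.sum_congr rfl fun i _ => ?_
  rw [inner_sum]
  refine Finset.sum_congr rfl fun j _ => ?_
  rw [real_inner_smul_left, real_inner_smul_right]
  ring

theorem pf_SCH (hWIJ : T_WIJ) (hSPT : T_SPT) : T_SCH := by
  intro M W _ _ _ _ c c' L N t x hwt hd
  set p : Fin N → ℝ := fun i => L.p (x i) with hp
  set w : Fin N → W := fun i => L.w (x i) with hw
  set K : Fin N → Fin N → ℝ := fun i j => L.K (x i) (x j) with hK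
  set a : Fin N → Fin N → ℝ := fun i j => p i * p j * ((1 + ⟪w i, w j⟫) / 2) with ha
  have hdec : ∀ i j, ov (x i) (x j) = a i j + K i j := fun i j => L.dec (x i) (x j)
  have hKpos : ∀ s : Fin N → ℝ, 0 ≤ ∑ i, ∑ j, s i * s j * K i j := fun s => L.K_pos N s x
  have hapos : ∀ s : Fin N → ℝ, 0 ≤ ∑ i, ∑ j, s i * s j * (2 * a i j) := by
    intro s
    have h1 : ∑ i, ∑ j, s i * s j * (2 * a i j) =
        (∑ i, s i * p i) ^ 2 + ‖∑ i, (s i * p i) • w i‖ ^ 2 := by
      rw [sch_sq, sch_norm, ← Finset.sum_add_distrib]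
      refine Finset.sum_congr rfl fun i _ => ?_
      rw [← Finset.sum_add_distrib]
      refine Finset.sum_congr rfl fun j _ => ?_
      simp only [ha]
      ring
    rw [h1]
    positivity
  have hB : ∀ s : Fin N → ℝ, 0 ≤ ∑ i, ∑ j, s i * s j * (K i j + 2 * a i j) := by
    intro s
    have h1 : ∑ i, ∑ j, s i * s j * (K i j + 2 * a i j) =
        ∑ i, ∑ j, s i * s j * K i j + ∑ i, ∑ j, s i * s j * (2 * a i j) := by
      rw [← Finset.sum_add_distrib]
      refine Finset.sum_congr rfl fun i _ => ?_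
      rw [← Finset.sum_add_distrib]
      refine Finset.sum_congr rfl fun j _ => ?_
      ring
    rw [h1]
    exact add_nonneg (hKpos s) (hapos s)
  have hasym : ∀ i j, a i j = a j i := by
    intro i j
    simp only [ha]
    rw [real_inner_comm]
    ring
  have hKsym : ∀ i j, K i j = K j i := fun i j => L.K_comm (x i) (x j)
  have hS := hSPT N K (fun i j => K i j + 2 * a i j) hKsym
    (fun i j => by rw [hKsym i j, hasym i j]) hKpos hB t
  -- the sum of the squares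
  have hsplit : ∑ i, ∑ j, t i * t j * ov (x i) (x j) ^ 2 =
      ∑ i, ∑ j, t i * t j * a i j ^ 2 +
        ∑ i, ∑ j, t i * t j * (K i j * (K i j + 2 * a i j)) := by
    rw [← Finset.sum_add_distrib]
    refine Finset.sum_congr rfl fun i _ => ?_
    rw [← Finset.sum_add_distrib]
    refine Finset.sum_congr rfl fun j _ => ?_
    rw [hdec]
    ring
  set b : Fin N → ℝ := fun i => t i * p i ^ 2 with hb
  have hasq : ∑ i, ∑ j, t i * t j * a i j ^ 2 =
      ((∑ i, b i) ^ 2 + 2 * ‖∑ i, b i • w i‖ ^ 2 + ∑ i, ∑ j, b i * b j * ⟪w i, w j⟫ ^ 2) / 4 := by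
    rw [sch_sq, sch_norm, Finset.mul_sum, ← Finset.sum_add_distrib, ← Finset.sum_add_distrib,
      Finset.sum_div]
    refine Finset.sum_congr rfl fun i _ => ?_
    rw [Finset.mul_sum, ← Finset.sum_add_distrib, ← Finset.sum_add_distrib, Finset.sum_div]
    refine Finset.sum_congr rfl fun j _ => ?_
    simp only [ha, hb]
    ring
  have hW := hWIJ W N b w (fun i => L.norm_w (x i))
  set d : ℝ := (Module.finrank ℝ W : ℝ) with hdd
  have hd0 : (0 : ℝ) < d := by rw [hdd]; exact_mod_cast hd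
  set B : ℝ := ∑ i, b i with hBdef
  set g : ℝ := ∑ i, t i * L.p (x i) with hg
  -- Cauchy-Schwarz
  have hCS : g ^ 2 ≤ B := by
    have h1 : 0 ≤ ∑ i, t i * (p i - g) ^ 2 :=
      Finset.sum_nonneg fun i _ => mul_nonneg (hwt.1 i) (sq_nonneg _)
    have h2 : ∑ i, t i * (p i - g) ^ 2 = B - 2 * g * g + g ^ 2 * ∑ i, t i := by
      have h3 : ∀ i, t i * (p i - g) ^ 2 = b i - 2 * g * (t i * L.p (x i)) + g ^ 2 * t i := by
        intro i
        simp only [hb, hp]
        ring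
      rw [Finset.sum_congr rfl fun i _ => h3 i, Finset.sum_add_distrib,
        Finset.sum_sub_distrib, ← Finset.mul_sum, ← Finset.mul_sum]
    rw [h2, hwt.2] at h1
    nlinarith
  have hB0 : 0 ≤ B := le_trans (sq_nonneg g) hCS
  have hB2 : g ^ 4 ≤ B ^ 2 := by
    have : g ^ 4 = (g ^ 2) ^ 2 := by ring
    rw [this]
    exact pow_le_pow_left₀ (sq_nonneg g) hCS 2
  have hQ : B ^ 2 / d ≤ ∑ i, ∑ j, b i * b j * ⟪w i, w j⟫ ^ 2 := by
    rw [div_le_iff₀ hd0]
    linarith [hW]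
  have hn : 0 ≤ ‖∑ i, b i • w i‖ ^ 2 := sq_nonneg _
  have hfin : B ^ 2 * ((d + 1) / (4 * d)) = (B ^ 2 + B ^ 2 / d) / 4 := by
    field_simp
  have hpos : 0 ≤ (d + 1) / (4 * d) := by positivity
  rw [hsplit, hasq]
  calc g ^ 4 * ((d + 1) / (4 * d)) ≤ B ^ 2 * ((d + 1) / (4 * d)) :=
        mul_le_mul_of_nonneg_right hB2 hpos
    _ = (B ^ 2 + B ^ 2 / d) / 4 := hfin
    _ ≤ _ := by linarith [hS]

end Pool.Agent.H38.JU
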